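import Pool.Agent.MP_249f74_an.H32.Bas
import Pool.Agent.MP_249f74_an.H17.CmBer
import Pool.Agent.MP_249f74_an.H96.Calc

/-!
Motions of generic tangent edges; matrices of quadrics.
-/

open Set
open Matrix hiding vec

namespace Pool.Agent.MP_249f74_an.H78

open H17.Cm (grad rf hat vec sp quad aff dv)
open H42 (ev Gen Cur FL mp)
open H32

variable {k C Ω ι : Type} [Field k] [Algebra k ℝ] [Field C] [Algebra k C] [Field Ω] [Algebra C Ω]

/-- A covector that kills a hyperplane. -/
lemma par_of_perp {κ : Type} [Fintype κ] {n W : κ → Ω} (h0 : n ≠ 0)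
    (h : ∀ a, n ⬝ᵥ a = 0 → W ⬝ᵥ a = 0) : ∃ c : Ω, W = c • n := by
  classical
  obtain ⟨j, hj⟩ := Function.ne_iff.1 h0
  refine ⟨W j / n j, funext fun i => ?_⟩
  have := h (Pi.single i 1 - (n i / n j) • Pi.single j 1) (by
    simp [show n j ≠ 0 from hj])
  simp only [dotProduct_sub, dotProduct_smul, dotProduct_single, mul_one, smul_eq_mul] at this
  simp only [Pi.smul_apply, smul_eq_mul]
  linear_combination this

variable [CharZero Ω]

lemma grad_ne {κ : Type} {l : κ → Ω} {π : MvPolynomial κ C} (hπ : Prime π)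
    (h : ∀ F, ev l F = 0 ↔ π ∣ F) : grad π l ≠ 0 := fun e => by
  have : CharZero C := (algebraMap C Ω).charZero
  have h1 : π.totalDegree = 0 := H17.Cm.td_zero_of_pderiv fun j => by_contra fun hn =>
    absurd (MvPolynomial.totalDegree_le_of_dvd_of_isDomain ((h _).1 (congrFun e j)) hn)
      (not_le.2 (H88.totalDegree_pderiv_lt hn))
  rw [MvPolynomial.totalDegree_eq_zero_iff_eq_C] at h1
  refine hπ.not_isUnit (h1 ▸ IsUnit.map _ (Ne.isUnit fun e => hπ.ne_zero ?_))
  rw [h1, e, map_zero]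

/-- A generic point of a hypersurface moves in all tangent directions. -/
lemma cur_free {κ : Type} [Fintype κ] {l : κ → Ω} {π : MvPolynomial κ C} (hπ : Prime π)
    (h : ∀ F, ev l F = 0 ↔ π ∣ F) {a : κ → Ω} (ha : grad π l ⬝ᵥ a = 0) :
    ∃ θ : Derivation C Ω Ω, dv θ l = a := by
  classical
  have : CharZero C := (algebraMap C Ω).charZero
  obtain ⟨j, hj⟩ := Function.ne_iff.1 (grad_ne hπ h)
  have hd : π.degreeOf j ≠ 0 := fun e => hj (by
    have := MvPolynomial.pderiv_eq_zero_of_notMem_vars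
      (mt MvPolynomial.mem_vars_iff_degreeOf_ne_zero.1 (not_not.2 e))
    simp [grad, this])
  have h2 : AlgebraicIndependent C fun i : (Finset.univ.erase j : Finset κ) => l i := by
    refine algebraicIndependent_iff.2 fun P hP => by_contra fun P0 => ?_
    obtain ⟨Q, hQ⟩ := (h (MvPolynomial.rename Subtype.val P)).1 (by
      rw [ev, MvPolynomial.aeval_rename]; exact hP)
    have h3 : MvPolynomial.rename Subtype.val P ≠ 0 := fun e =>
      P0 (MvPolynomial.rename_injective _ Subtype.val_injective (e.trans (map_zero _).symm))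
    have h4 : (MvPolynomial.rename Subtype.val P).degreeOf j = 0 := by
      by_contra h5
      obtain ⟨i, -, hi⟩ := Finset.mem_image.1 (MvPolynomial.vars_rename _ _
        (MvPolynomial.mem_vars_iff_degreeOf_ne_zero.2 h5))
      exact (Finset.mem_erase.1 i.2).1 hi
    rw [hQ, MvPolynomial.degreeOf_mul_eq hπ.ne_zero (right_ne_zero_of_mul (hQ ▸ h3))] at h4
    omega
  obtain ⟨θ, hθ⟩ := H97.der_exists_of_indep (M := Ω) h2 fun i => a i
  have h5 : ∀ i, i ≠ j → θ (l i) = a i := fun i hi => hθ ⟨i, by simpa using hi⟩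
  have h6 : grad π l ⬝ᵥ (dv θ l - a) = 0 := by
    rw [dotProduct_sub, ha, H17.Cm.grad_dv ((h π).2 dvd_rfl), sub_zero]
  rw [dotProduct, Finset.sum_eq_single j (fun i _ hi => by simp [dv, h5 i hi]) (by simp),
    mul_eq_zero, or_iff_right (show grad π l j ≠ 0 from hj), Pi.sub_apply, sub_eq_zero] at h6
  exact ⟨θ, funext fun i => if e : i = j then e ▸ h6 else h5 i e⟩

variable [Fintype ι] [DecidableEq ι] {m : Mir k C ι} {l : ι ⊕ ι → Ω} {t : Ω}

omit [CharZero Ω] [Fintype ι] [DecidableEq ι] in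
lemma dv_pt (θ : Derivation C Ω Ω) (l : ι ⊕ ι → Ω) (t : Ω) :
    dv θ (pt l t) = dv θ (pos l) + t • dv θ (dir l) + θ t • dir l := by
  ext i; simp [dv, pt]; ring

/-- A generic tangent edge with its point of contact. -/
structure Tan (m : Mir k C ι) (l : ι ⊕ ι → Ω) (t : Ω) : Prop where
  cur : Cur C l
  on : m.On (pt l t)
  tan : grad m.f (pt l t) ⬝ᵥ dir l = 0

omit [CharZero Ω] [DecidableEq ι] in
lemma exists_tan (h : Tl m l) : ∃ t, Tan m l t := h.2.imp fun _ h' => ⟨h.1, h'.1, h'.2⟩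

/-- The motions of a generic tangent edge. -/
lemma Tan.free (h : Tan m l t) {ξ η : ι → Ω} (e : grad m.f (pt l t) ⬝ᵥ (ξ + t • η) = 0) :
    ∃ θ : Derivation C Ω Ω, dv θ (pos l) = ξ ∧ dv θ (dir l) = η := by
  obtain ⟨π, hπ, hk⟩ := h.cur
  obtain ⟨c, hc⟩ := par_of_perp (W := Sum.elim (grad m.f (pt l t)) (t • grad m.f (pt l t)))
    (grad_ne hπ hk) fun a ha => by
      obtain ⟨θ, rfl⟩ := cur_free hπ hk ha
      have := H17.Cm.grad_dv (θ := θ) h.on.zero
      rw [dv_pt, dotProduct_add, dotProduct_add, dotProduct_smul, dotProduct_smul, h.tan,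
        smul_zero, add_zero, ← smul_dotProduct] at this
      rw [← this]
      simp only [dotProduct, Fintype.sum_sum_type]
      rfl
  have c0 : c ≠ 0 := by
    rintro rfl
    exact h.on.grad_ne (funext fun i => by simpa using congrFun hc (.inl i))
  obtain ⟨θ, hθ⟩ := cur_free hπ hk (a := Sum.elim ξ η) (by
    rw [← mul_right_inj' c0, mul_zero, ← smul_eq_mul, ← smul_dotProduct, ← hc,
      sumElim_dotProduct_sumElim, ← e, dotProduct_add, dotProduct_smul, smul_dotProduct])
  exact ⟨θ, funext fun i => congrFun hθ (.inl i), funext fun i => congrFun hθ (.inr i)⟩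

lemma Tan.gen_dir (h : Tan m l t) : Gen C (dir l) :=
  gen_iff.2 <| H17.Cm.indep_of_dual fun j =>
    (h.free (ξ := -(t • Pi.single j 1)) (η := Pi.single j 1) (by simp)).imp fun _ h => h.2

lemma Tan.ne (h : Tan m l t) : t ≠ 0 := by
  rintro rfl
  refine h.on.grad_ne (funext fun i => ?_)
  obtain ⟨θ, h1, h2⟩ := h.free (ξ := 0) (η := Pi.single i 1) (by simp)
  have h3 : dv θ (pt l 0) = 0 := by simp [dv_pt, h1]
  have := congrArg θ h.tan
  simpa [H17.Cm.dv_dot, H17.Cm.dv_grad h3, h2] using this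

lemma Tan.gen_pos (h : Tan m l t) : Gen C (pos l) :=
  gen_iff.2 <| H17.Cm.indep_of_dual fun j =>
    (h.free (ξ := Pi.single j 1) (η := -(t⁻¹ • Pi.single j 1)) (by
      simp [smul_smul, h.ne])).imp fun _ h => h.1

section Mat

variable [CharZero C] {F : MvPolynomial ι C}

omit [Fintype ι] [DecidableEq ι] in
lemma eq_C_of_pderiv (h : ∀ i, MvPolynomial.pderiv i F = 0) : ∃ c, F = MvPolynomial.C c :=
  ⟨_, MvPolynomial.totalDegree_eq_zero_iff_eq_C.1 (H17.Cm.td_zero_of_pderiv h)⟩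

omit [Fintype ι] [DecidableEq ι] [CharZero C] in
lemma td_pderiv {d : ℕ} (h : F.totalDegree ≤ d + 1) (i : ι) :
    (MvPolynomial.pderiv i F).totalDegree ≤ d := by
  by_cases e : MvPolynomial.pderiv i F = 0
  · simp [e]
  · have := H88.totalDegree_pderiv_lt e
    omega

lemma exists_aff (h : F.totalDegree ≤ 1) : ∃ a, F = aff a := by
  have h1 : ∀ i, ∃ c, MvPolynomial.pderiv i F = MvPolynomial.C c := fun i =>
    ⟨_, MvPolynomial.totalDegree_eq_zero_iff_eq_C.1 (Nat.le_zero.1 (td_pderiv h i))⟩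
  choose c hc using h1
  obtain ⟨b, hb⟩ := eq_C_of_pderiv (F := F - aff (vec c)) fun i => by
    rw [map_sub, hc, H17.Cm.pderiv_aff]; simp [H17.Cm.vec]
  refine ⟨fun o => o.elim b c, ?_⟩
  rw [sub_eq_iff_eq_add.1 hb]
  simp [H17.Cm.aff_eq, H17.Cm.vec]

/-- The matrix of a quadric. -/
lemma exists_quad (h : F.totalDegree ≤ 2) :
    ∃ A : Matrix (Option ι) (Option ι) C, A.IsSymm ∧ F = quad A := by
  choose a ha using fun i => exists_aff (td_pderiv h i)
  have hs : ∀ i j, a i (some j) = a j (some i) := fun i j => by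
    have := H17.Cm.pderiv_comm i j F
    rw [ha, ha, H17.Cm.pderiv_aff, H17.Cm.pderiv_aff] at this
    exact (MvPolynomial.C_injective _ _ this).symm
  let A : C → Matrix (Option ι) (Option ι) C := fun b => of fun o p =>
    o.elim (p.elim b fun j => a j none / 2) fun i => a i p / 2
  have hA : ∀ b, (A b).IsSymm := fun b => IsSymm.ext fun o p => by
    cases o <;> cases p <;> simp [A, hs]
  obtain ⟨b, hb⟩ := eq_C_of_pderiv (F := F - quad (A 0)) fun i => by
    rw [map_sub, ha, H17.Cm.pderiv_quad (hA 0), aff, sub_eq_zero, dotProduct_comm]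
    simp only [mulVec, dotProduct, Finset.mul_sum]
    refine Finset.sum_congr rfl fun o _ => ?_
    rw [← mul_assoc, show (2 : MvPolynomial ι C) = MvPolynomial.C 2 from rfl, map_apply, ← map_mul]
    simp [A, mul_div_cancel₀]
  refine ⟨A b, hA b, ?_⟩
  rw [sub_eq_iff_eq_add.1 hb]
  simp [quad, A, hat, mulVec, dotProduct, Fintype.sum_option, add_assoc]

end Mat

section Bf

variable {n : Type} [Fintype n] {A B : Matrix n n C} {a b c : n → Ω}

/-- The value of a bilinear form. -/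
def bf (A : Matrix n n C) (a b : n → Ω) : Ω := a ⬝ᵥ A.map (algebraMap C Ω) *ᵥ b

/-- The value of a linear form. -/
def lf (h : n → C) (a : n → Ω) : Ω := a ⬝ᵥ fun o => algebraMap C Ω (h o)

omit [CharZero Ω]

lemma bf_comm (hA : A.IsSymm) (a b : n → Ω) : bf A a b = bf A b a :=
  H17.Cm.symm_dot (hA.map _) a b

lemma bf_add_left (A : Matrix n n C) (a b c : n → Ω) : bf A (a + b) c = bf A a c + bf A b c :=
  add_dotProduct ..

lemma bf_add_right (A : Matrix n n C) (a b c : n → Ω) : bf A a (b + c) = bf A a b + bf A a c := by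
  simp [bf, mulVec_add]

lemma bf_sub_left (A : Matrix n n C) (a b c : n → Ω) : bf A (a - b) c = bf A a c - bf A b c :=
  sub_dotProduct ..

lemma bf_sub_right (A : Matrix n n C) (a b c : n → Ω) : bf A a (b - c) = bf A a b - bf A a c := by
  simp [bf, mulVec_sub]

lemma bf_smul_left (A : Matrix n n C) (s : Ω) (a b : n → Ω) : bf A (s • a) b = s * bf A a b :=
  smul_dotProduct ..

lemma bf_smul_right (A : Matrix n n C) (s : Ω) (a b : n → Ω) : bf A a (s • b) = s * bf A a b := by
  simp [bf, mulVec_smul]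

lemma bf_add (A B : Matrix n n C) (a b : n → Ω) : bf (A + B) a b = bf A a b + bf B a b := by
  simp [bf, Matrix.map_add, add_mulVec]

lemma bf_smul (s : C) (A : Matrix n n C) (a b : n → Ω) :
    bf (s • A) a b = algebraMap C Ω s * bf A a b := by
  simp [bf, dotProduct, mulVec, Finset.mul_sum, mul_assoc, mul_left_comm]

lemma bf_vecMulVec (h g : n → C) (a b : n → Ω) : bf (vecMulVec h g) a b = lf h a * lf g b := by
  simp only [bf, lf, dotProduct, mulVec, map_apply, vecMulVec_apply, map_mul, Finset.mul_sum,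
    Finset.sum_mul]
  rw [Finset.sum_comm]
  exact Finset.sum_congr rfl fun _ _ => Finset.sum_congr rfl fun _ _ => by ring

lemma lf_mulVec (A : Matrix n n C) (z : n → C) (a : n → Ω) :
    lf (A *ᵥ z) a = bf A a fun o => algebraMap C Ω (z o) := by
  simp [lf, bf, dotProduct, mulVec]

lemma bf_mem {K : IntermediateField C Ω} (A : Matrix n n C) (ha : ∀ o, a o ∈ K)
    (hb : ∀ o, b o ∈ K) : bf A a b ∈ K :=
  sum_mem fun o _ => mul_mem (ha o) (sum_mem fun p _ => mul_mem (K.algebraMap_mem _) (hb p))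

lemma lf_mem {K : IntermediateField C Ω} (h : n → C) (ha : ∀ o, a o ∈ K) : lf h a ∈ K :=
  sum_mem fun o _ => mul_mem (ha o) (K.algebraMap_mem _)

lemma dv_lf (θ : Derivation C Ω Ω) (h : n → C) (a : n → Ω) : θ (lf h a) = lf h (dv θ a) := by
  simp [lf, dotProduct, dv, mul_comm]

lemma dv_bf (θ : Derivation C Ω Ω) (A : Matrix n n C) (a b : n → Ω) :
    θ (bf A a b) = bf A (dv θ a) b + bf A a (dv θ b) := by
  simp only [bf, dotProduct, mulVec, dv, map_sum, Derivation.leibniz, smul_eq_mul, map_apply,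
    Derivation.map_algebraMap, mul_zero, add_zero, ← Finset.sum_add_distrib]
  exact Finset.sum_congr rfl fun _ _ => by ring

lemma bf_map (σ : Ω ≃ₐ[C] Ω) (A : Matrix n n C) (a b : n → Ω) :
    bf A (σ ∘ a) (σ ∘ b) = σ (bf A a b) := by
  simp [bf, dotProduct, mulVec]

end Bf

section Quad

variable {A : Matrix (Option ι) (Option ι) C}

/-- The discriminant of the section of a quadric. -/
def dsc (A : Matrix (Option ι) (Option ι) C) (l : ι ⊕ ι → Ω) : Ω :=
  bf A (hat (pos l)) (vec (dir l)) ^ 2 -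
    bf A (hat (pos l)) (hat (pos l)) * bf A (vec (dir l)) (vec (dir l))

omit [CharZero Ω]

omit [Fintype ι] [DecidableEq ι] in
lemma hat_pt (l : ι ⊕ ι → Ω) (t : Ω) : hat (pt l t) = hat (pos l) + t • vec (dir l) := by
  ext (_ | i) <;> simp [pt, hat, H17.Cm.vec]

omit [Fintype ι] [DecidableEq ι] in
lemma dv_hat (θ : Derivation C Ω Ω) (q : ι → Ω) : dv θ (hat q) = vec (dv θ q) := by
  ext (_ | i) <;> simp [dv, hat, H17.Cm.vec]

omit [Fintype ι] [DecidableEq ι] in
lemma dv_vec (θ : Derivation C Ω Ω) (q : ι → Ω) : dv θ (vec q) = vec (dv θ q) := by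
  ext (_ | i) <;> simp [dv, H17.Cm.vec]

omit [Fintype ι] [DecidableEq ι] in
lemma hat_mem {K : IntermediateField C Ω} {q : ι → Ω} (h : ∀ i, q i ∈ K) : ∀ o, hat q o ∈ K
  | none => one_mem K
  | some i => h i

omit [Fintype ι] [DecidableEq ι] in
lemma vec_mem {K : IntermediateField C Ω} {q : ι → Ω} (h : ∀ i, q i ∈ K) : ∀ o, vec q o ∈ K
  | none => zero_mem K
  | some i => h i

omit [DecidableEq ι] in
lemma dsc_pt (hA : A.IsSymm) (l : ι ⊕ ι → Ω) (t : Ω) :
    dsc A l = bf A (hat (pt l t)) (vec (dir l)) ^ 2 -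
      bf A (hat (pt l t)) (hat (pt l t)) * bf A (vec (dir l)) (vec (dir l)) := by
  simp only [dsc, hat_pt, bf_add_left, bf_add_right, bf_smul_left, bf_smul_right,
    bf_comm hA (vec (dir l)) (hat (pos l))]
  ring

omit [DecidableEq ι] in
lemma dsc_mp (σ : Ω ≃ₐ[C] Ω) (A : Matrix (Option ι) (Option ι) C) (l : ι ⊕ ι → Ω) :
    dsc A (mp σ l) = σ (dsc A l) := by
  have h1 : hat (pos (mp σ l)) = σ ∘ hat (pos l) := by ext (_ | i) <;> simp [hat, pos, mp]
  have h2 : vec (dir (mp σ l)) = σ ∘ vec (dir l) := by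
    ext (_ | i) <;> simp [H17.Cm.vec, dir, mp]
  simp [dsc, h1, h2, bf_map]

lemma aeval_quad (A : Matrix (Option ι) (Option ι) C) (q : ι → Ω) :
    MvPolynomial.aeval q (quad A) = bf A (hat q) (hat q) := H17.Cm.aeval_quad A q

lemma grad_dot (hA : A.IsSymm) (q v : ι → Ω) :
    grad (quad A) q ⬝ᵥ v = 2 * bf A (hat q) (vec v) := by
  rw [H17.Cm.grad_quad hA, smul_dotProduct, bf_comm hA, bf, H17.Cm.vec_dot, dotProduct_comm]
  rfl

/-- A linear form that vanishes at a generic point of a mirror. -/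
lemma lin_zero {q : ι → Ω} (hq : m.On q) {h : Option ι → C} (e : lf h (hat q) = 0) : h = 0 := by
  refine H17.Cm.aff_eq_zero (by_contra fun hn => ?_)
  have h1 := MvPolynomial.totalDegree_le_of_dvd_of_isDomain
    ((hq (aff h)).1 ((H17.Cm.aeval_aff h q).trans e)) hn
  have h2 := H17.Cm.td_aff_le h
  have h3 := m.deg
  omega

lemma Tan.pp (h : Tan m l t) (hm : m.f = quad A) : bf A (hat (pt l t)) (hat (pt l t)) = 0 := by
  rw [← aeval_quad, ← hm, h.on.zero]

variable [CharZero Ω]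

lemma Tan.pu (h : Tan m l t) (hA : A.IsSymm) (hm : m.f = quad A) :
    bf A (hat (pt l t)) (vec (dir l)) = 0 := by
  simpa [hm, grad_dot hA] using h.tan

lemma Tan.dsc (h : Tan m l t) (hA : A.IsSymm) (hm : m.f = quad A) : dsc A l = 0 := by
  simp [dsc_pt hA l t, h.pp hm, h.pu hA hm]

lemma Tan.uu (h : Tan m l t) (hq : Qd m) (hm : m.f = quad A) :
    bf A (vec (dir l)) (vec (dir l)) ≠ 0 := by
  refine H17.Cm.top_quad (b := 1) (by rw [one_smul, ← hm, hq]) fun e => ?_
  rw [one_smul, ← hm] at e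
  exact top_ne m.prime.ne_zero (h.gen_dir _ e)

/-- The direction moves, the point of contact and its parameter do not. -/
lemma Tan.fix (h : Tan m l t) (hq : Qd m) (hA : A.IsSymm) (hm : m.f = quad A) {η : ι → Ω}
    (e : bf A (hat (pt l t)) (vec η) = 0) :
    ∃ θ : Derivation C Ω Ω, dv θ (pt l t) = 0 ∧ θ t = 0 ∧ dv θ (dir l) = η := by
  obtain ⟨θ, h1, h2⟩ := h.free (ξ := -(t • η)) (η := η) (by simp)
  have h3 : dv θ (pt l t) = θ t • dir l := by simp [dv_pt, h1, h2]
  have h4 := congrArg θ (h.pu hA hm)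
  rw [dv_bf, dv_hat, dv_vec, h2, h3, e, H17.Cm.vec_smul, bf_smul_left, add_zero, map_zero,
    mul_eq_zero, or_iff_left (h.uu hq hm)] at h4
  exact ⟨θ, by simp [h3, h4], h4, h2⟩

end Quad

end Pool.Agent.MP_249f74_an.H78
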