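import Pool.Agent.MP_249f74_an.H78.SplRed
import Pool.Agent.MP_249f74_an.H42.Esc
import Pool.Agent.MP_249f74_an.H42.S2
import Pool.Agent.MP_249f74_an.H10.S3

/-!
The orbit of a split tangent edge of a quadric.
-/

open Matrix hiding vec

namespace Pool.Agent.MP_249f74_an.H78

open H32

variable {k C Ω ι : Type} [Field k] [Algebra k ℝ] [Field C] [Algebra k C] [Field Ω] [Algebra C Ω]
  [Fintype ι] [DecidableEq ι] [IsAlgClosed C] [IsAlgClosed Ω] [CharZero Ω]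

theorem spl : (sys k C Ω ι).SPL := by
  intro m m' l u l' hq hq' hne hc hl st hu
  have : CharZero C := (algebraMap C Ω).charZero
  obtain ⟨A, hA, hm⟩ := exists_quad (F := m.f) (le_of_eq hq)
  obtain ⟨c, y, c0, hm', ⟨x, h1, h2⟩ | ⟨g, h1, h2, h3⟩⟩ := red hq' hne hA hm hl st hu
  · obtain ⟨K, w, k0, k1, k2, k3⟩ := H42.S2.rank4 hA hm c0 rfl hm' h1 h2 hl st
    refine ⟨K, w, k0, k1, k2, fun i m'' hi q n t hw => ?_⟩
    obtain ⟨c', y', c1, e, -⟩ := red q n hA hm t (k2 i).1 hw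
    obtain ⟨s, hs⟩ := exists_tan t
    exact k3 i (by omega) c' c1 _ (hs.dsc ((hA.smul c').add (transpose_vecMulVec _ _)) e)
  · obtain ⟨K, w, k0, k1, k2, k3⟩ := H10.s3 hq hq' (fun e => hc ⟨hne.symm, .inl e⟩) h1 h2 hm c0 hm'
      h3 hl st
    refine ⟨K, w, k0, k1, k2, fun i m'' hi q n t hw => ?_⟩
    obtain ⟨c', y', c1, e, -⟩ := red q n hA hm t (k2 i).1 hw
    exact k3 i (by omega) m'' c' y' c1 e t

theorem split (hS : (sys k C Ω ι).Sec) : (sys k C Ω ι).SPLIT := H42.Sys.split bas hS spl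

end Pool.Agent.MP_249f74_an.H78
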