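import Pool.Agent.MP_249f74_an.H78.SplFree

/-!
Squares in simple transcendental extensions; normal forms of symmetric matrices.
-/

open Set Polynomial
open Matrix hiding vec

namespace Pool.Agent.MP_249f74_an.H78

open H17 (Kr mem_Kr)
open H17.Cm (quad aff)

variable {C Ω : Type} [Field C] [Field Ω] [Algebra C Ω]

/-- The field that is generated by the constants of `θ` and `T`. -/
def Ft (θ : Derivation C Ω Ω) (T : Ω) : IntermediateField C Ω :=
  (IntermediateField.adjoin (Kr θ) {T}).restrictScalars C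

lemma mem_Ft {θ : Derivation C Ω Ω} {T a : Ω} (h : θ a = 0) : a ∈ Ft θ T :=
  (IntermediateField.adjoin (Kr θ) {T}).algebraMap_mem ⟨a, h⟩

lemma self_mem_Ft (θ : Derivation C Ω Ω) (T : Ω) : T ∈ Ft θ T :=
  IntermediateField.mem_adjoin_simple_self _ T

lemma sq4_poly {g0 g1 g2 g3 g4 : Ω} {h : Polynomial Ω}
    (hh : Polynomial.C g0 + Polynomial.C g1 * X + Polynomial.C g2 * X ^ 2 +
      Polynomial.C g3 * X ^ 3 + Polynomial.C g4 * X ^ 4 = h ^ 2) :
    ∃ a b c : Ω, g0 = a ^ 2 ∧ g1 = 2 * a * b ∧ g2 = 2 * a * c + b ^ 2 ∧ g3 = 2 * b * c ∧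
      g4 = c ^ 2 := by
  have hd : h.natDegree ≤ 2 := by
    have : (h ^ 2).natDegree ≤ 4 := by rw [← hh]; compute_degree
    rw [natDegree_pow] at this
    omega
  have e2 := h.as_sum_range_C_mul_X_pow' (Nat.lt_succ_of_le hd)
  simp only [Finset.sum_range_succ, Finset.range_zero, Finset.sum_empty] at e2
  generalize h.coeff 0 = a, h.coeff 1 = b, h.coeff 2 = c at e2
  have e3 : h ^ 2 = Polynomial.C (a ^ 2) + Polynomial.C (2 * a * b) * X +
      Polynomial.C (2 * a * c + b ^ 2) * X ^ 2 + Polynomial.C (2 * b * c) * X ^ 3 +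
      Polynomial.C (c ^ 2) * X ^ 4 := by
    rw [e2]
    simp only [map_add, map_mul, map_pow, map_ofNat]
    ring
  have e4 := fun n => congrArg (coeff · n) (hh.trans e3)
  simp only [coeff_add, coeff_C_mul, coeff_X_pow, coeff_X, coeff_C] at e4
  exact ⟨a, b, c, by simpa using e4 0, by simpa using e4 1, by simpa using e4 2,
    by simpa using e4 3, by simpa using e4 4⟩

/-- A quartic whose value at a transcendental element is a square. -/
lemma sq4 [CharZero Ω] {θ : Derivation C Ω Ω} {T z g0 g1 g2 g3 g4 : Ω} (hT : θ T ≠ 0)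
    (k0 : θ g0 = 0) (k1 : θ g1 = 0) (k2 : θ g2 = 0) (k3 : θ g3 = 0) (k4 : θ g4 = 0)
    (hz : z ∈ Ft θ T) (e : z ^ 2 = g0 + g1 * T + g2 * T ^ 2 + g3 * T ^ 3 + g4 * T ^ 4) :
    ∃ a b c : Ω, g0 = a ^ 2 ∧ g1 = 2 * a * b ∧ g2 = 2 * a * c + b ^ 2 ∧ g3 = 2 * b * c ∧
      g4 = c ^ 2 := by
  have ht : Transcendental (Kr θ) T := fun h =>
    hT (H17.kill_cl (S := (Kr θ : Set Ω)) (fun _ h => h) (H17.mem_cl_iff.2 h))
  have hi := transcendental_iff_injective.1 ht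
  obtain ⟨r, s, hrs⟩ := (IntermediateField.mem_adjoin_simple_iff (Kr θ) (α := T) z).1
    ((IntermediateField.mem_restrictScalars C).1 hz)
  obtain ⟨g, hg⟩ : ∃ g : (Kr θ)[X], g.map (algebraMap _ Ω) = Polynomial.C g0 +
      Polynomial.C g1 * X + Polynomial.C g2 * X ^ 2 + Polynomial.C g3 * X ^ 3 +
      Polynomial.C g4 * X ^ 4 :=
    ⟨Polynomial.C ⟨g0, k0⟩ + Polynomial.C ⟨g1, k1⟩ * X + Polynomial.C ⟨g2, k2⟩ * X ^ 2 +
      Polynomial.C ⟨g3, k3⟩ * X ^ 3 + Polynomial.C ⟨g4, k4⟩ * X ^ 4, by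
      simp only [Polynomial.map_add, Polynomial.map_mul, Polynomial.map_pow, map_C, map_X]
      rfl⟩
  have hg' : z ^ 2 = aeval T g := by
    rw [← eval_map_algebraMap, hg, e]
    simp only [eval_add, eval_mul, eval_pow, eval_C, eval_X]
  obtain ⟨h, hh⟩ : ∃ h, g = h ^ 2 := by
    by_cases s0 : s = 0
    · exact ⟨0, hi (by rw [← hg', hrs, s0, map_pow, map_zero, div_zero])⟩
    have s1 : aeval T s ≠ 0 := fun e => s0 (hi (e.trans (map_zero _).symm))
    have e1 : r ^ 2 = s ^ 2 * g := hi (by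
      rw [map_mul, map_pow, map_pow, ← hg', hrs, ← mul_pow, mul_div_cancel₀ _ s1])
    obtain ⟨h, rfl⟩ := (IsIntegrallyClosed.pow_dvd_pow_iff two_ne_zero).1 ⟨g, e1⟩
    exact ⟨h, mul_left_cancel₀ (pow_ne_zero 2 s0) (by rw [← e1, mul_pow])⟩
  exact sq4_poly (hg.symm.trans (by rw [hh, Polynomial.map_pow]))

lemma card_le_of_span {r d : ℕ} (v : Fin d → Fin r → Ω)
    (h : ∀ Y, Y ∈ Submodule.span Ω (range v)) : r ≤ d := by
  have := finrank_range_le_card (R := Ω) v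
  rwa [Set.finrank, Submodule.eq_top_iff'.2 h, finrank_top, Module.finrank_fin_fun,
    Fintype.card_fin] at this

section Nf

variable {n : Type} [Fintype n] [CharZero C]

lemma exists_aniso {A : Matrix n n C} (hA : A.IsSymm) (h0 : A ≠ 0) : ∃ a, a ⬝ᵥ A *ᵥ a ≠ 0 := by
  classical
  by_contra! hn
  refine h0 (Matrix.ext fun i j => ?_)
  have h1 := hn (Pi.single i 1 + Pi.single j 1)
  rw [mulVec_add, add_dotProduct, dotProduct_add, dotProduct_add, hn, hn,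
    H17.Cm.symm_dot hA (Pi.single j 1)] at h1
  simpa [← two_mul] using h1

variable [IsAlgClosed C]

lemma nf_aux (d : ℕ) : ∀ A : Matrix n n C, A.IsSymm → A.rank = d → ∃ (r : ℕ) (g γ : Fin r → n → C),
    (∀ a b, g a ⬝ᵥ γ b = if a = b then 1 else 0) ∧ A = ∑ a, vecMulVec (g a) (g a) := by
  induction d using Nat.strong_induction_on with
  | _ d ih =>
  intro A hA hd
  by_cases h0 : A = 0
  · exact ⟨0, 0, 0, fun a => a.elim0, by simp [h0]⟩
  obtain ⟨a, ha⟩ : ∃ a, a ⬝ᵥ A *ᵥ a = 1 := by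
    obtain ⟨a, ha⟩ := exists_aniso hA h0
    obtain ⟨s, hs⟩ := IsAlgClosed.exists_pow_nat_eq (a ⬝ᵥ A *ᵥ a)⁻¹ two_pos
    refine ⟨s • a, ?_⟩
    rw [mulVec_smul, smul_dotProduct, dotProduct_smul, smul_smul, ← sq, hs, smul_eq_mul,
      inv_mul_cancel₀ ha]
  have e1 : ∀ v, (A - vecMulVec (A *ᵥ a) (A *ᵥ a)) *ᵥ v = A *ᵥ (v - (A *ᵥ a ⬝ᵥ v) • a) :=
    fun v => by rw [sub_mulVec, vecMulVec_mulVec, mulVec_sub, mulVec_smul]; simp
  have e2 : ∀ v, a ⬝ᵥ (A - vecMulVec (A *ᵥ a) (A *ᵥ a)) *ᵥ v = 0 := fun v => by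
    rw [e1, mulVec_sub, mulVec_smul, dotProduct_sub, dotProduct_smul, ha, H17.Cm.symm_dot hA,
      dotProduct_comm]
    simp
  obtain ⟨r, g, γ, h1, h2⟩ := ih _ (show (A - vecMulVec (A *ᵥ a) (A *ᵥ a)).rank < d by
    rw [← hd]
    refine Submodule.finrank_lt_finrank_of_lt (lt_of_le_of_ne ?_ fun e => ?_)
    · rintro _ ⟨v, rfl⟩
      exact ⟨_, (e1 v).symm⟩
    · obtain ⟨v, hv⟩ := e.ge (LinearMap.mem_range_self _ a)
      exact one_ne_zero (ha.symm.trans ((congrArg (a ⬝ᵥ ·) hv).symm.trans (e2 v))))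
    _ (hA.sub (transpose_vecMulVec _ _)) rfl
  have h3 : ∀ b, g b ⬝ᵥ a = 0 := fun b => by
    have := e2 (γ b)
    rw [h2, Matrix.sum_mulVec] at this
    simpa [vecMulVec_mulVec, h1, dotProduct_sum, dotProduct_comm a] using this
  refine ⟨r + 1, Fin.cons (A *ᵥ a) g, Fin.cons a fun b => γ b - (A *ᵥ a ⬝ᵥ γ b) • a,
    fun i j => ?_, by simp [Fin.sum_univ_succ, ← h2]⟩
  rw [dotProduct_comm] at ha
  refine Fin.cases (Fin.cases ?_ fun j => ?_) (fun i => Fin.cases ?_ fun j => ?_) i j <;>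
    simp [ha, h1, h3, (Fin.succ_ne_zero _).symm]

/-- The normal form of a symmetric matrix. -/
lemma nf {A : Matrix n n C} (hA : A.IsSymm) :
    ∃ (r : ℕ) (P : Matrix (Fin r) n C) (Γ : Matrix n (Fin r) C), P * Γ = 1 ∧ A = Pᵀ * P := by
  obtain ⟨r, g, γ, h1, h2⟩ := nf_aux _ A hA rfl
  refine ⟨r, of g, (of γ)ᵀ, Matrix.ext fun a b => ?_, Matrix.ext fun i j => ?_⟩
  · rw [one_apply, ← h1]; rfl
  · simp [h2, mul_apply, Matrix.sum_apply, vecMulVec_apply]

end Nf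

lemma le_rank {n : Type} [Fintype n] {r : ℕ} {P : Matrix (Fin r) n C} {Γ : Matrix n (Fin r) C}
    (h : P * Γ = 1) : r ≤ (Pᵀ * P).rank := by
  have e : Γᵀ * (Pᵀ * P) * Γ = 1 := by
    rw [← Matrix.mul_assoc, ← transpose_mul, h, transpose_one, Matrix.one_mul, h]
  have := (rank_mul_le_left (Γᵀ * (Pᵀ * P)) Γ).trans (rank_mul_le_right _ _)
  rwa [e, rank_one, Fintype.card_fin] at this

variable {ι : Type} [Fintype ι] [DecidableEq ι]

omit [DecidableEq ι] in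
lemma quad_nf {r : ℕ} (P : Matrix (Fin r) (Option ι) C) : quad (Pᵀ * P) = ∑ a, aff (P a) ^ 2 := by
  rw [quad, Matrix.map_mul, transpose_map, ← mulVec_mulVec, dotProduct_mulVec, vecMul_transpose]
  exact Finset.sum_congr rfl fun a _ => by rw [sq, aff, dotProduct_comm]; rfl

/-- Irreducible quadrics have rank at least three. -/
lemma three_le [IsAlgClosed C] {r : ℕ} {P : Matrix (Fin r) (Option ι) C}
    (hp : Prime (quad (Pᵀ * P))) (hd : 2 ≤ (quad (Pᵀ * P)).totalDegree) : 3 ≤ r := by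
  by_contra hn
  obtain ⟨a, b, e⟩ : ∃ a b, quad (Pᵀ * P) = aff a * aff b := by
    rw [quad_nf]
    obtain ⟨s, hs⟩ := IsAlgClosed.exists_pow_nat_eq (-1 : C) two_pos
    have hs' : (MvPolynomial.C s : MvPolynomial ι C) ^ 2 = -1 := by rw [← map_pow, hs]; simp
    obtain rfl | rfl | rfl : r = 0 ∨ r = 1 ∨ r = 2 := by omega
    · exact ⟨0, 0, by simp [aff]⟩
    · exact ⟨P 0, P 0, by simp [sq]⟩
    · refine ⟨P 0 + s • P 1, P 0 + (-s) • P 1, ?_⟩
      simp only [Fin.sum_univ_two, H17.Cm.aff_add, H17.Cm.aff_smul, map_neg]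
      linear_combination aff (P 1) ^ 2 * hs'
  have h1 := MvPolynomial.totalDegree_mul (aff a) (aff b)
  have h2 := H17.Cm.td_aff_le a
  have h3 := H17.Cm.td_aff_le b
  rw [← e] at h1
  rcases hp.irreducible.isUnit_or_isUnit e with u | u <;>
    have := MvPolynomial.totalDegree_le_of_dvd_of_isDomain u.dvd (one_ne_zero (α := _)) <;>
    rw [MvPolynomial.totalDegree_one] at this <;> omega

end Pool.Agent.MP_249f74_an.H78
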