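import Pool.Agent.MP_249f74_an.H78.SplAlg

/-!
The two types of pairs of quadrics that are tangent along a hyperplane section.
-/

open Set
open Matrix hiding vec

namespace Pool.Agent.MP_249f74_an.H78

variable {C Ω : Type} [Field C] [CharZero C] [IsAlgClosed C]

/-- The tangent cone. -/
lemma cone {r : ℕ} (hr : r ≤ 4) {S : Matrix (Fin r) (Fin r) C} (hS : S.IsSymm) (h3 : 3 ≤ S.rank)
    {c : C} (e : S * S = c • S) (hne : S ≠ c • 1) :
    c ≠ 0 ∧ ∃ κ ζ, S = c • 1 + vecMulVec κ κ ∧ S *ᵥ ζ = 0 ∧ κ ⬝ᵥ ζ = 1 := by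
  have c0 : c ≠ 0 := by
    rintro rfl
    have := rank_add_rank_le_card_of_mul_eq_zero (e.trans (zero_smul _ _))
    rw [Fintype.card_fin] at this
    omega
  have e1 : S * (S - c • 1) = 0 := by simp [Matrix.mul_sub, e]
  have h1 := rank_add_rank_le_card_of_mul_eq_zero e1
  obtain ⟨s, R, Γ, h2, h4⟩ := nf (hS.sub (isSymm_one.smul c))
  have h5 := le_rank h2
  rw [Fintype.card_fin] at h1
  rw [← h4] at h5
  obtain rfl | rfl : s = 0 ∨ s = 1 := by omega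
  · exact absurd (sub_eq_zero.1 (h4.trans (by ext; simp [mul_apply]))) hne
  have h6 : S = c • 1 + vecMulVec (R 0) (R 0) := by
    rw [← sub_eq_iff_eq_add', h4]; ext; simp [mul_apply, vecMulVec_apply]
  have h7 : R 0 ⬝ᵥ Γᵀ 0 = 1 := (congrFun₂ h2 0 0).trans (one_apply_eq 0)
  have h8 : S *ᵥ R 0 = 0 := by
    have := congrArg (· *ᵥ Γᵀ 0) e1
    simpa [← mulVec_mulVec, sub_eq_iff_eq_add'.2 h6, vecMulVec_mulVec, h7] using this
  have h9 : c + R 0 ⬝ᵥ R 0 = 0 := by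
    have := congrArg (· ⬝ᵥ Γᵀ 0) h8
    simpa [h6, add_mulVec, smul_mulVec, vecMulVec_mulVec, h7] using this
  refine ⟨c0, R 0, -c⁻¹ • R 0, h6, by simp [mulVec_smul, mulVec_neg, h8], ?_⟩
  rw [dotProduct_smul, smul_eq_mul, eq_neg_of_add_eq_zero_right h9]
  field_simp

/-- Conics with a double contact. -/
lemma conic {R Γ : Matrix (Fin 3) (Fin 3) C} (h : R * Γ = 1) {I a b c : C} (hI : I ^ 2 = -1)
    (e0 : (R * Rᵀ) 0 0 - (R * Rᵀ) 1 1 + 2 * I * (R * Rᵀ) 0 1 = a ^ 2)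
    (e1 : 4 * (R * Rᵀ) 0 2 + 4 * I * (R * Rᵀ) 1 2 = 2 * a * b)
    (e2 : 4 * (R * Rᵀ) 2 2 - 2 * (R * Rᵀ) 0 0 - 2 * (R * Rᵀ) 1 1 = 2 * a * c + b ^ 2)
    (e3 : 4 * I * (R * Rᵀ) 1 2 - 4 * (R * Rᵀ) 0 2 = 2 * b * c)
    (e4 : (R * Rᵀ) 0 0 - (R * Rᵀ) 1 1 - 2 * I * (R * Rᵀ) 0 1 = c ^ 2) :
    ∃ (s : C) (κ : Fin 3 → C), s ≠ 0 ∧ Rᵀ * R = s • 1 + vecMulVec κ κ := by
  obtain ⟨s, v, e⟩ : ∃ (s : C) (v : Fin 3 → C), R * Rᵀ = s • 1 + vecMulVec v v := by
    have hs := (isSymm_mul_transpose_self R).apply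
    generalize R * Rᵀ = H at *
    refine ⟨H 2 2 - b ^ 2 / 4, ![(a - c) / 2, -I * (a + c) / 2, b / 2], ?_⟩
    have k1 : H 0 1 = (a - c) / 2 * (-I * (a + c) / 2) := by
      linear_combination -I / 4 * (e0 - e4) + H 0 1 * hI
    have k2 : H 0 2 = (a - c) / 2 * (b / 2) := by linear_combination (e1 - e3) / 8
    have k3 : H 1 2 = -I * (a + c) / 2 * (b / 2) := by
      linear_combination -I / 8 * (e1 + e3) + H 1 2 * hI
    ext i j
    fin_cases i <;> fin_cases j <;> simp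
    · linear_combination (e0 + e4 - e2) / 4
    · linear_combination k1
    · linear_combination k2
    · linear_combination k1 + hs 0 1
    · linear_combination -(e0 + e4 + e2) / 4 - (a + c) ^ 2 / 4 * hI
    · linear_combination k3
    · linear_combination k2 + hs 0 2
    · linear_combination k3 + hs 1 2
    · ring
  have h' := mul_eq_one_comm.1 h
  have h1 : Rᵀ * Γᵀ = 1 := by rw [← transpose_mul, h', transpose_one]
  have h2 : Rᵀ *ᵥ v = (s + v ⬝ᵥ v) • (Γ *ᵥ v) := by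
    have := congrArg (fun M => (Γ * M) *ᵥ v) e
    simp only [← Matrix.mul_assoc, h', Matrix.one_mul] at this
    rw [this, ← mulVec_mulVec, add_mulVec, vecMulVec_mulVec, add_smul]
    simp [smul_mulVec, mulVec_add, mulVec_smul]
  obtain ⟨w, hw⟩ := IsAlgClosed.exists_pow_nat_eq (s + v ⬝ᵥ v) two_pos
  have h3 : Rᵀ * R = s • 1 + vecMulVec (w • (Γ *ᵥ v)) (w • (Γ *ᵥ v)) := by
    have := congrArg (fun M => Rᵀ * M * Γᵀ) e
    simp only [Matrix.mul_assoc, h1, Matrix.mul_one] at this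
    rw [this, Matrix.add_mul, Matrix.mul_add, vecMulVec_mul, mul_vecMulVec, h2, vecMul_transpose,
      smul_vecMulVec, smul_vecMulVec, vecMulVec_smul, smul_smul, ← sq, hw]
    simp [h1]
  refine ⟨s, _, ?_, h3⟩
  rintro rfl
  have := le_rank h
  rw [h3, zero_smul, zero_add] at this
  exact absurd (this.trans (rank_vecMulVec_le _ _)) (by norm_num)

omit [CharZero C] in
lemma sq_mem [Field Ω] [Algebra C Ω] {a : Ω} {x : C} (h : algebraMap C Ω x = a ^ 2) :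
    ∃ b, a = algebraMap C Ω b := by
  obtain ⟨b, rfl⟩ := IsAlgClosed.exists_pow_nat_eq x two_pos
  rw [map_pow] at h
  rcases sq_eq_sq_iff_eq_or_eq_neg.1 h.symm with e | e
  exacts [⟨b, e⟩, ⟨-b, by rw [e, map_neg]⟩]

end Pool.Agent.MP_249f74_an.H78
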