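import Pool.Agent.MP_249f74_an.H78.SplMat

/-!
A quadric that splits over the tangent edges of a second quadric is tangent to it along a
hyperplane section.
-/

open Set
open Matrix hiding vec

namespace Pool.Agent.MP_249f74_an.H78

open H17 (Kr mem_Kr)
open H17.Cm (grad hat vec sp quad aff dv)
open H32

variable {k C Ω ι : Type} [Field k] [Algebra k ℝ] [Field C] [Algebra k C] [Field Ω] [Algebra C Ω]

section Mv

variable {m n p : Type} [Fintype n]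

/-- The value of a linear map. -/
def mv (P : Matrix m n C) (y : n → Ω) : m → Ω := P.map (algebraMap C Ω) *ᵥ y

lemma mv_add (P : Matrix m n C) (a b : n → Ω) : mv P (a + b) = mv P a + mv P b := mulVec_add ..

lemma mv_sub (P : Matrix m n C) (a b : n → Ω) : mv P (a - b) = mv P a - mv P b := mulVec_sub ..

lemma mv_smul (P : Matrix m n C) (s : Ω) (a : n → Ω) : mv P (s • a) = s • mv P a := mulVec_smul ..

lemma mv_mv [Fintype p] (P : Matrix m n C) (Q : Matrix n p C) (a : p → Ω) :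
    mv P (mv Q a) = mv (P * Q) a := by
  rw [mv, mv, mv, mulVec_mulVec, Matrix.map_mul]

lemma mv_one [DecidableEq n] (a : n → Ω) : mv (1 : Matrix n n C) a = a := by simp [mv]

lemma dot_mv [Fintype m] (P : Matrix m n C) (a : n → Ω) (b : m → Ω) :
    a ⬝ᵥ mv Pᵀ b = mv P a ⬝ᵥ b := by
  rw [mv, mv, dotProduct_mulVec, transpose_map, vecMul_transpose]

lemma bf_mv [Fintype m] (P : Matrix m n C) (S : Matrix m m C) (a b : n → Ω) :
    bf (Pᵀ * S * P) a b = mv P a ⬝ᵥ mv S (mv P b) := by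
  rw [← dot_mv, mv_mv, mv_mv]; rfl

lemma bf_nf [Fintype m] (P : Matrix m n C) (a b : n → Ω) :
    bf (Pᵀ * P) a b = mv P a ⬝ᵥ mv P b := by
  rw [← dot_mv, mv_mv]; rfl

lemma mv_mem {K : IntermediateField C Ω} (P : Matrix m n C) {a : n → Ω} (ha : ∀ o, a o ∈ K)
    (i : m) : mv P a i ∈ K := sum_mem fun p _ => mul_mem (K.algebraMap_mem _) (ha p)

lemma dot_mem {K : IntermediateField C Ω} {a b : n → Ω} (ha : ∀ o, a o ∈ K) (hb : ∀ o, b o ∈ K) :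
    a ⬝ᵥ b ∈ K := sum_mem fun p _ => mul_mem (ha p) (hb p)

lemma dv_mv (θ : Derivation C Ω Ω) (P : Matrix m n C) (a : n → Ω) :
    dv θ (mv P a) = mv P (dv θ a) := by
  ext i; simp [mv, mulVec, dotProduct, dv]

lemma mem_of_dot {K : IntermediateField C Ω} {a b : n → Ω} {j : n} (h : a ⬝ᵥ b = 0)
    (ha : ∀ o, o ≠ j → a o ∈ K) (hb : ∀ o, b o ∈ K) (hj : b j ≠ 0) (o : n) : a o ∈ K := by
  classical
  by_cases e : o = j
  · rw [dotProduct, ← Finset.add_sum_erase _ _ (Finset.mem_univ j), add_eq_zero_iff_eq_neg,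
      ← eq_div_iff hj] at h
    rw [e, h]
    exact div_mem (neg_mem (sum_mem fun i hi => mul_mem (ha i (Finset.mem_erase.1 hi).1) (hb i)))
      (hb j)
  · exact ha o e

/-- The projection along a plane. -/
def prj (π U Y : n → Ω) : n → Ω :=
  ((π ⬝ᵥ U) ^ 2 - π ⬝ᵥ π * (U ⬝ᵥ U)) • Y + (U ⬝ᵥ U * (π ⬝ᵥ Y) - π ⬝ᵥ U * (U ⬝ᵥ Y)) • π +
    (π ⬝ᵥ π * (U ⬝ᵥ Y) - π ⬝ᵥ U * (π ⬝ᵥ Y)) • U

/-- The Gram determinant. -/
def gr (π U : n → Ω) : (n → Ω) →ₗ[Ω] (n → Ω) →ₗ[Ω] Ω :=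
  LinearMap.mk₂ Ω (fun Y Z => prj π U Y ⬝ᵥ Z) (fun _ _ _ => by simp [prj]; ring)
    (fun _ _ _ => by simp [prj]; ring) (fun _ _ _ => dotProduct_add ..)
    fun _ _ _ => dotProduct_smul ..

lemma gr_apply (π U Y Z : n → Ω) : gr π U Y Z = prj π U Y ⬝ᵥ Z := rfl

lemma gr_comm (π U Y Z : n → Ω) : gr π U Y Z = gr π U Z Y := by
  simp [gr_apply, prj, dotProduct_comm Y Z]; ring

lemma gr_left (π U Z : n → Ω) : gr π U π Z = 0 := by
  simp [gr_apply, prj, dotProduct_comm U π]; ring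

lemma mem_span_of_prj {π U Y ν : n → Ω} {c : Ω} (hD : (π ⬝ᵥ U) ^ 2 - π ⬝ᵥ π * (U ⬝ᵥ U) ≠ 0)
    (h : prj π U Y = c • ν) {W : Submodule Ω (n → Ω)} (h1 : π ∈ W) (h2 : U ∈ W) (h3 : ν ∈ W) :
    Y ∈ W := by
  have := W.smul_mem c h3
  rw [← h, prj, W.add_mem_iff_left (W.smul_mem _ h2), W.add_mem_iff_left (W.smul_mem _ h1)] at this
  exact (W.smul_mem_iff hD).1 this

end Mv

variable [CharZero Ω] [Fintype ι] [DecidableEq ι] {m : Mir k C ι} {l : ι ⊕ ι → Ω} {t z : Ω}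
  {B : Matrix (Option ι) (Option ι) C} {r : ℕ} {P : Matrix (Fin r) (Option ι) C}

omit [CharZero Ω] [Fintype ι] [DecidableEq ι] in
lemma mem_of_edge {K : IntermediateField C Ω} (hz : z ∈ IntermediateField.adjoin C (range l))
    (h1 : ∀ i, pos l i ∈ K) (h2 : ∀ i, dir l i ∈ K) : z ∈ K :=
  IntermediateField.adjoin_le_iff.2 (by rintro _ ⟨i | i, rfl⟩; exacts [h1 i, h2 i]) hz

/-- The data of a split tangent edge. -/
structure Dat (m : Mir k C ι) (l : ι ⊕ ι → Ω) (t z : Ω) (B : Matrix (Option ι) (Option ι) C)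
    (P : Matrix (Fin r) (Option ι) C) : Prop where
  tan : Tan m l t
  qd : Qd m
  sy : B.IsSymm
  eq : m.f = quad B
  mem : z ∈ IntermediateField.adjoin C (range l)
  ne : z ≠ 0
  sq : z ^ 2 = dsc (Pᵀ * P) l
  pp : mv P (hat (pt l t)) ⬝ᵥ mv P (hat (pt l t)) ≠ 0

omit [CharZero Ω] [DecidableEq ι] in
lemma Dat.sq' (h : Dat m l t z B P) : z ^ 2 = (mv P (hat (pt l t)) ⬝ᵥ mv P (vec (dir l))) ^ 2 -
    mv P (hat (pt l t)) ⬝ᵥ mv P (hat (pt l t)) * (mv P (vec (dir l)) ⬝ᵥ mv P (vec (dir l))) := by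
  rw [h.sq, dsc_pt (A := Pᵀ * P) (transpose_mul _ _) l t, bf_nf, bf_nf, bf_nf]

lemma Dat.rat (h : Dat m l t z B P) {w : ι → Ω} (hw : bf B (hat (pt l t)) (vec w) = 0)
    (hr : ∀ θ : Derivation C Ω Ω, dv θ (pt l t) = 0 → dv θ w = 0) :
    gr (mv P (hat (pt l t))) (mv P (vec (dir l))) (mv P (vec w)) (mv P (vec w)) = 0 := by
  by_cases w0 : w = 0
  · have : mv P (vec w) = 0 := by
      rw [w0, ← zero_smul Ω w, H17.Cm.vec_smul, mv_smul, zero_smul]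
    simp [this]
  obtain ⟨i, hi⟩ := Function.ne_iff.1 w0
  obtain ⟨θ, k1, k2, k3⟩ := h.tan.fix h.qd h.sy h.eq hw
  have k4 := hr θ k1
  obtain ⟨T, hT⟩ : ∃ T, θ T = 1 := ⟨dir l i / w i, by
    have e1 : θ (w i) = 0 := congrFun k4 i
    have e2 : θ (dir l i) = w i := congrFun k3 i
    simp [div_eq_mul_inv, Derivation.leibniz_inv, e1, e2, show w i ≠ 0 from hi]⟩
  obtain ⟨v, hv⟩ : ∃ v, dir l = v + T • w := ⟨dir l - T • w, by simp⟩
  have k5 : dv θ v = 0 := by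
    simpa [hv, H17.Cm.dv_add, H17.Cm.dv_smul, hT, k4] using k3
  have m1 := mv_mem (K := Kr θ) P (hat_mem (congrFun k1))
  have m2 := mv_mem (K := Kr θ) P (vec_mem (congrFun k4))
  have m3 := mv_mem (K := Kr θ) P (vec_mem (congrFun k5))
  have m4 : ∀ j, dir l j ∈ Ft θ T := fun j => hv ▸ add_mem (mem_Ft (congrFun k5 j))
    (mul_mem (self_mem_Ft θ T) (mem_Ft (congrFun k4 j)))
  have m5 : z ∈ Ft θ T := mem_of_edge h.mem (fun j => by
    rw [show pos l j = pt l t j - t * dir l j by simp [pt]]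
    exact sub_mem (mem_Ft (congrFun k1 j)) (mul_mem (mem_Ft k2) (m4 j))) m4
  have e := h.sq'
  have e0 := h.pp
  rw [hv, H17.Cm.vec_add, H17.Cm.vec_smul, mv_add, mv_smul] at e ⊢
  generalize mv P (hat (pt l t)) = π, mv P (vec w) = W, mv P (vec v) = V at *
  obtain ⟨a, b, c, e1, e2, e3, -, e4⟩ := sq4 (g0 := (π ⬝ᵥ V) ^ 2 - π ⬝ᵥ π * (V ⬝ᵥ V))
    (g1 := 2 * (π ⬝ᵥ V * (π ⬝ᵥ W) - π ⬝ᵥ π * (V ⬝ᵥ W))) (g2 := (π ⬝ᵥ W) ^ 2 - π ⬝ᵥ π * (W ⬝ᵥ W))
    (hT ▸ one_ne_zero)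
    (mem_Kr.1 (sub_mem (pow_mem (dot_mem m1 m3) 2) (mul_mem (dot_mem m1 m1) (dot_mem m3 m3))))
    (mem_Kr.1 (mul_mem (ofNat_mem _ 2) (sub_mem (mul_mem (dot_mem m1 m3) (dot_mem m1 m2))
      (mul_mem (dot_mem m1 m1) (dot_mem m3 m2)))))
    (mem_Kr.1 (sub_mem (pow_mem (dot_mem m1 m2) 2) (mul_mem (dot_mem m1 m1) (dot_mem m2 m2))))
    (map_zero θ) (map_zero θ) m5 (by simp [e, dotProduct_comm W V]; ring)
  obtain rfl := pow_eq_zero_iff two_ne_zero |>.1 e4.symm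
  refine mul_left_cancel₀ e0 ?_
  simp only [gr_apply, prj, add_dotProduct, dotProduct_add, smul_dotProduct, dotProduct_smul,
    smul_eq_mul, dotProduct_comm W V]
  linear_combination (π ⬝ᵥ V * (π ⬝ᵥ W) - π ⬝ᵥ π * (V ⬝ᵥ W) + a * b) / 2 * e2 -
    ((π ⬝ᵥ W) ^ 2 - π ⬝ᵥ π * (W ⬝ᵥ W)) * e1 - a ^ 2 * e3

lemma Dat.all (h : Dat m l t z B P) {y y' : Option ι → Ω} (hy : bf B (hat (pt l t)) y = 0)
    (hy' : bf B (hat (pt l t)) y' = 0) :
    gr (mv P (hat (pt l t))) (mv P (vec (dir l))) (mv P y) (mv P y') = 0 := by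
  obtain ⟨j, hj⟩ := Function.ne_iff.1 h.tan.on.grad_ne
  have hN : ∀ w, grad m.f (pt l t) ⬝ᵥ w = 0 ↔ bf B (hat (pt l t)) (vec w) = 0 := fun w => by
    simp [h.eq, grad_dot h.sy]
  have hd := fun θ : Derivation C Ω Ω => H17.Cm.dv_grad (θ := θ) (q := pt l t) (F := m.f)
  generalize grad m.f (pt l t) = N at *
  let b : ι → ι → Ω := fun i => Pi.single i 1 - (N i / N j) • Pi.single j 1
  have b1 : ∀ i, N ⬝ᵥ b i = 0 := fun i => by simp [b, show N j ≠ 0 from hj]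
  have b2 : ∀ i, ∀ θ : Derivation C Ω Ω, dv θ (pt l t) = 0 → dv θ (b i) = 0 := fun i θ e => by
    have : ∀ i, θ (N i) = 0 := congrFun (hd θ e)
    ext o
    simp [b, dv, Pi.single_apply, apply_ite θ, div_eq_mul_inv, Derivation.leibniz_inv, this]
  have b3 : ∀ i i', gr (mv P (hat (pt l t))) (mv P (vec (dir l))) (mv P (vec (b i)))
      (mv P (vec (b i'))) = 0 := fun i i' => by
    have := h.rat (w := b i + b i') ((hN _).1 (by rw [dotProduct_add, b1, b1, add_zero]))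
      fun θ e => by rw [H17.Cm.dv_add, b2 i θ e, b2 i' θ e, add_zero]
    simp only [H17.Cm.vec_add, mv_add, map_add, LinearMap.add_apply,
      h.rat ((hN _).1 (b1 _)) (b2 _)] at this
    rw [gr_comm _ _ (mv P (vec (b i')))] at this
    linear_combination this / 2
  have b4 : ∀ y, bf B (hat (pt l t)) y = 0 → ∃ (s : Ω) (w : ι → Ω),
      mv P y = s • mv P (hat (pt l t)) + ∑ i, w i • mv P (vec (b i)) := fun y hy => by
    obtain ⟨s, w, rfl⟩ : ∃ (s : Ω) (w : ι → Ω), y = s • hat (pt l t) + vec w :=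
      ⟨y none, sp y - y none • pt l t, by ext (_ | i) <;> simp [hat, H17.Cm.vec, sp]⟩
    rw [bf_add_right, bf_smul_right, h.tan.pp h.eq, mul_zero, zero_add, ← hN] at hy
    have : vec w = ∑ i, w i • vec (b i) := by
      ext (_ | o)
      · simp [H17.Cm.vec]
      · simp only [H17.Cm.vec, Option.elim, Finset.sum_apply, Pi.smul_apply, b, Pi.sub_apply,
          smul_eq_mul, mul_sub, Finset.sum_sub_distrib, ← mul_assoc, ← Finset.sum_mul,
          ← mul_div_assoc, ← Finset.sum_div]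
        rw [dotProduct_comm, dotProduct] at hy
        simp [hy, Pi.single_apply]
    refine ⟨s, w, ?_⟩
    rw [mv_add, mv_smul, this]
    simp [mv, mulVec_sum, mulVec_smul]
  obtain ⟨s, w, e⟩ := b4 y hy
  obtain ⟨s', w', e'⟩ := b4 y' hy'
  simp [e, e', gr_left, gr_comm _ _ _ (mv P (hat (pt l t))), b3, LinearMap.sum_apply]

omit [CharZero Ω] [DecidableEq ι] in
lemma Dat.dd (h : Dat m l t z B P) : (mv P (hat (pt l t)) ⬝ᵥ mv P (vec (dir l))) ^ 2 -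
    mv P (hat (pt l t)) ⬝ᵥ mv P (hat (pt l t)) * (mv P (vec (dir l)) ⬝ᵥ mv P (vec (dir l))) ≠ 0 :=
  h.sq' ▸ pow_ne_zero 2 h.ne

omit [CharZero Ω] in
lemma mv_zero {n : Type} {q : ι → Ω} (hq : m.On q) {M : Matrix n (Option ι) C}
    (e : mv M (hat q) = 0) : M = 0 :=
  funext fun i => lin_zero hq ((dotProduct_comm _ _).trans (congrFun e i))

lemma quad_par {q : ι → Ω} (hq : m.On q) (h2 : Qd m) (hB : B.IsSymm) (hm : m.f = quad B)
    {B' : Matrix (Option ι) (Option ι) C} (hB' : B'.IsSymm) (e : bf B' (hat q) (hat q) = 0) :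
    ∃ c : C, B' = c • B := by
  have : CharZero C := (algebraMap C Ω).charZero
  obtain ⟨c, hc⟩ := H17.Cm.eq_C_mul ((hq _).1 ((aeval_quad B' q).trans e))
    ((H17.Cm.td_quad B').trans h2.ge)
  refine ⟨c, sub_eq_zero.1 (H17.Cm.quad_eq_zero (hB'.sub (hB.smul c)) ?_)⟩
  rw [← sub_eq_zero.2 hc, hm]
  simp [quad, mulVec, dotProduct, mul_sub, sub_mul, Finset.mul_sum, mul_assoc, mul_left_comm,
    -Fintype.sum_option]

variable {Γ : Matrix (Option ι) (Fin r) C}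

/-- The vertex of the first quadric lies in the vertex of the second quadric. -/
lemma Dat.vertex (h : Dat m l t z B P) (hΓ : P * Γ = 1) (h3 : 3 ≤ r) :
    B = Pᵀ * (Γᵀ * B * Γ) * P := by
  have h1 : (1 - Γ * P)ᵀ * B = 0 := mv_zero h.tan.on <| dotProduct_eq_zero _ fun y => by
    rw [dotProduct_comm, ← mv_mv, dot_mv]
    have h4 : mv P (mv (1 - Γ * P) y) = 0 := by
      rw [mv_mv, Matrix.mul_sub, ← Matrix.mul_assoc, hΓ]; simp [mv]
    generalize mv (1 - Γ * P) y = y at h4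
    by_contra h2
    replace h2 : bf B (hat (pt l t)) y ≠ 0 := bf_comm h.sy y _ ▸ h2
    have h5 : ∀ Y, ∃ x, bf B (hat (pt l t)) x = 0 ∧ mv P x = Y := fun Y =>
      ⟨mv Γ Y - (bf B (hat (pt l t)) (mv Γ Y) / bf B (hat (pt l t)) y) • y, by
        rw [bf_sub_right, bf_smul_right, div_mul_cancel₀ _ h2, sub_self], by
        rw [mv_sub, mv_smul, h4, mv_mv, hΓ, mv_one, smul_zero, sub_zero]⟩
    refine absurd (card_le_of_span ![mv P (hat (pt l t)), mv P (vec (dir l))] fun Y => ?_)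
      (by omega)
    refine mem_span_of_prj h.dd ((dotProduct_eq_zero _ fun Z => ?_).trans (zero_smul Ω 0).symm)
      (Submodule.subset_span ⟨0, rfl⟩) (Submodule.subset_span ⟨1, rfl⟩) (zero_mem _)
    obtain ⟨x, k1, rfl⟩ := h5 Y
    obtain ⟨x', k2, rfl⟩ := h5 Z
    exact h.all k1 k2
  have h2 : B = Pᵀ * (Γᵀ * B) := by
    simpa [transpose_mul, Matrix.sub_mul, sub_eq_zero, Matrix.mul_assoc] using h1
  have h4 : B = B * Γ * P := by
    simpa [transpose_mul, h.sy.eq] using congrArg transpose h2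
  rw [← Matrix.mul_assoc Pᵀ, ← h2, ← h4]

variable {S : Matrix (Fin r) (Fin r) C}

lemma Dat.span (h : Dat m l t z (Pᵀ * S * P) P) (hΓ : P * Γ = 1)
    {W : Submodule Ω (Fin r → Ω)} (h1 : mv P (hat (pt l t)) ∈ W) (h2 : mv P (vec (dir l)) ∈ W)
    (h3 : mv S (mv P (hat (pt l t))) ∈ W) {e : Fin r → Ω} (h4 : e ∈ W)
    (h5 : mv S (mv P (hat (pt l t))) ⬝ᵥ e ≠ 0) (Y : Fin r → Ω) : Y ∈ W := by
  have k1 : ∀ Y, mv S (mv P (hat (pt l t))) ⬝ᵥ Y = 0 →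
      bf (Pᵀ * S * P) (hat (pt l t)) (mv Γ Y) = 0 ∧ mv P (mv Γ Y) = Y := fun Y hY => by
    rw [bf_comm h.sy, bf_mv, mv_mv P Γ, hΓ, mv_one, dotProduct_comm]
    exact ⟨hY, rfl⟩
  have k2 : ∀ Y, mv S (mv P (hat (pt l t))) ⬝ᵥ Y = 0 → Y ∈ W := fun Y hY => by
    obtain ⟨c, hc⟩ := par_of_perp (n := mv S (mv P (hat (pt l t))))
      (W := prj (mv P (hat (pt l t))) (mv P (vec (dir l))) Y) (fun e => h5 (by simp [e]))
      fun Z hZ => by
        simpa only [(k1 _ hY).2, (k1 _ hZ).2, gr_apply] using h.all (k1 _ hY).1 (k1 _ hZ).1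
    exact mem_span_of_prj h.dd hc h1 h2 h3
  have := k2 (Y - (mv S (mv P (hat (pt l t))) ⬝ᵥ Y / mv S (mv P (hat (pt l t))) ⬝ᵥ e) • e) (by
    simp [h5])
  exact (W.sub_mem_iff_left (W.smul_mem _ h4)).1 this

omit [CharZero Ω] in
lemma cross_par {X U ν : Fin 3 → Ω} (h1 : ν ⬝ᵥ X = 0) (h2 : ν ⬝ᵥ U = 0) (j : Fin 3) :
    (X ⨯₃ U) j ^ 2 * (ν ⬝ᵥ ν) = ν j ^ 2 * (X ⬝ᵥ X * (U ⬝ᵥ U) - (X ⬝ᵥ U) ^ 2) := by
  have h3 : ν ⨯₃ (X ⨯₃ U) = 0 := by
    rw [cross_cross_eq_smul_sub_smul', h2, dotProduct_comm, h1]; simp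
  rw [sq (X ⬝ᵥ U), ← (dotProduct_comm U X ▸ cross_dot_cross X U X U :)]
  generalize X ⨯₃ U = M at h3
  have a := congrFun h3 0
  have b := congrFun h3 1
  have c := congrFun h3 2
  simp only [cross_apply, cons_val, Pi.zero_apply] at a b c
  simp only [dotProduct, Fin.sum_univ_three]
  fin_cases j <;> simp only [Fin.zero_eta, Fin.mk_one, Fin.reduceFinMk]
  · linear_combination (M 2 * ν 0 + M 0 * ν 2) * b - (M 1 * ν 0 + M 0 * ν 1) * c
  · linear_combination (M 1 * ν 0 + M 0 * ν 1) * c - (M 2 * ν 1 + M 1 * ν 2) * a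
  · linear_combination (M 2 * ν 1 + M 1 * ν 2) * a - (M 2 * ν 0 + M 0 * ν 2) * b

/-- Cones over two conics. -/
lemma Dat.three [IsAlgClosed C] {P : Matrix (Fin 3) (Option ι) C} {Γ : Matrix (Option ι) (Fin 3) C}
    {R Γ' : Matrix (Fin 3) (Fin 3) C} (h : Dat m l t z (Pᵀ * (Rᵀ * R) * P) P) (hΓ : P * Γ = 1)
    (hR : R * Γ' = 1) : ∃ (s : C) (κ : Fin 3 → C), s ≠ 0 ∧ Rᵀ * R = s • 1 + vecMulVec κ κ := by
  have : CharZero C := (algebraMap C Ω).charZero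
  obtain ⟨I, hI⟩ := IsAlgClosed.exists_pow_nat_eq (-1 : C) two_pos
  obtain ⟨i, hi⟩ : ∃ i, i = algebraMap C Ω I := ⟨_, rfl⟩
  have hi2 : i ^ 2 = -1 := by rw [hi, ← map_pow, hI]; simp
  have hb : ∀ a b : Option ι → Ω,
      bf (Pᵀ * (Rᵀ * R) * P) a b = mv P b ⬝ᵥ mv Rᵀ (mv R (mv P a)) := fun a b => by
    rw [bf_comm h.sy, bf_mv, mv_mv Rᵀ]
  obtain ⟨μ, τ, μ0, e⟩ : ∃ μ τ : Ω, μ ≠ 0 ∧
      mv R (mv P (hat (pt l t))) = μ • ![1 - τ ^ 2, i * (1 + τ ^ 2), 2 * τ] := by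
    have e0 := h.tan.pp h.eq
    rw [hb, dot_mv, mv_mv] at e0
    have e1 : mv (R * P) (hat (pt l t)) 0 - i * mv (R * P) (hat (pt l t)) 1 ≠ 0 := fun e => by
      have e2 := lin_zero (h := (R * P) 0 - I • (R * P) 1) h.tan.on (by
        rw [← e, hi]
        simp only [lf, mv, mulVec, dotProduct, map_apply, Pi.sub_apply, Pi.smul_apply, smul_eq_mul,
          map_sub, map_mul, Finset.mul_sum, ← Finset.sum_sub_distrib]
        exact Finset.sum_congr rfl fun _ _ => by ring)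
      have e3 : R * P * (Γ * Γ') = 1 := by
        rw [Matrix.mul_assoc, ← Matrix.mul_assoc P, hΓ, Matrix.one_mul, hR]
      have e4 := congrArg (· ⬝ᵥ (Γ * Γ')ᵀ 0) e2
      simp only [sub_dotProduct, smul_dotProduct, zero_dotProduct] at e4
      rw [show (R * P) 0 ⬝ᵥ (Γ * Γ')ᵀ 0 = 1 from congrFun₂ e3 0 0,
        show (R * P) 1 ⬝ᵥ (Γ * Γ')ᵀ 0 = 0 from congrFun₂ e3 1 0] at e4
      simp at e4
    rw [mv_mv]
    generalize mv (R * P) (hat (pt l t)) = π at e0 e1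
    simp only [dotProduct, Fin.sum_univ_three] at e0
    obtain ⟨d, hd⟩ : ∃ d, π 0 - i * π 1 = d := ⟨_, rfl⟩
    rw [hd] at e1
    refine ⟨d / 2, π 2 / d, div_ne_zero e1 two_ne_zero, ?_⟩
    ext j
    fin_cases j <;> simp <;> field_simp <;> subst hd
    · linear_combination e0 - π 1 ^ 2 * hi2
    · linear_combination -i * e0 + (2 * π 0 * π 1 - i * π 1 ^ 2) * hi2
  have e1 : ∀ θ : Derivation C Ω Ω, ∀ j, ![1 - τ ^ 2, i * (1 + τ ^ 2), 2 * τ] j ∈ Ft θ τ :=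
    fun θ j => by
      have := self_mem_Ft θ τ
      fin_cases j
      exacts [sub_mem (one_mem _) (pow_mem this 2), mul_mem (hi ▸ (Ft θ τ).algebraMap_mem I)
        (add_mem (one_mem _) (pow_mem this 2)), mul_mem (ofNat_mem _ 2) this]
  have e2 : ∀ θ : Derivation C Ω Ω, θ τ = 0 → dv θ ![1 - τ ^ 2, i * (1 + τ ^ 2), 2 * τ] = 0 :=
    fun θ k => by
      have : θ 2 = 0 := by simpa using θ.map_natCast 2
      ext j
      fin_cases j <;> simp [dv, k, hi, this]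
  have e3 : mv Rᵀ ![1 - τ ^ 2, i * (1 + τ ^ 2), 2 * τ] ⬝ᵥ
      mv Rᵀ ![1 - τ ^ 2, i * (1 + τ ^ 2), 2 * τ] =
      algebraMap C Ω ((R * Rᵀ) 0 0 - (R * Rᵀ) 1 1 + 2 * I * (R * Rᵀ) 0 1) +
      algebraMap C Ω (4 * (R * Rᵀ) 0 2 + 4 * I * (R * Rᵀ) 1 2) * τ +
      algebraMap C Ω (4 * (R * Rᵀ) 2 2 - 2 * (R * Rᵀ) 0 0 - 2 * (R * Rᵀ) 1 1) * τ ^ 2 +
      algebraMap C Ω (4 * I * (R * Rᵀ) 1 2 - 4 * (R * Rᵀ) 0 2) * τ ^ 3 +
      algebraMap C Ω ((R * Rᵀ) 0 0 - (R * Rᵀ) 1 1 - 2 * I * (R * Rᵀ) 0 1) * τ ^ 4 := by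
    have hs := (isSymm_mul_transpose_self R).apply
    rw [← bf_nf, transpose_transpose]
    generalize R * Rᵀ = H at hs
    simp only [bf, dotProduct, mulVec, Fin.sum_univ_three, map_apply, cons_val, hs 0 1, hs 0 2,
      hs 1 2, map_add, map_sub, map_mul, map_ofNat, ← hi]
    linear_combination algebraMap C Ω (H 1 1) * (1 + τ ^ 2) ^ 2 * hi2
  generalize ![1 - τ ^ 2, i * (1 + τ ^ 2), 2 * τ] = E at e e1 e2 e3
  have n0 : ∀ b, bf (Pᵀ * (Rᵀ * R) * P) (hat (pt l t)) b = μ * (mv P b ⬝ᵥ mv Rᵀ E) := fun b => by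
    rw [hb, e, mv_smul, dotProduct_smul, smul_eq_mul]
  have n1 : mv P (vec (dir l)) ⬝ᵥ mv Rᵀ E = 0 := by simpa [n0, μ0] using h.tan.pu h.sy h.eq
  have n2 : mv P (hat (pos l)) ⬝ᵥ mv Rᵀ E = 0 := by
    simpa [μ0, hat_pt l t, mv_add, mv_smul, n1] using (n0 _).symm.trans (h.tan.pp h.eq)
  obtain ⟨o, ho⟩ : ∃ o, mv Pᵀ (mv Rᵀ E) (some o) ≠ 0 := by
    by_contra! hn
    refine h.tan.on.grad_ne (dotProduct_eq_zero _ fun v => ?_)
    rw [h.eq, grad_dot h.sy, n0, ← dot_mv, H17.Cm.vec_dot,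
      show sp (mv Pᵀ (mv Rᵀ E)) = 0 from funext hn]
    simp
  obtain ⟨θ, k1, k2⟩ := h.tan.free (ξ := -(t • Pi.single o 1)) (η := Pi.single o 1) (by simp)
  have k3 : θ τ ≠ 0 := fun k => ho (by
    have := congrArg θ n1
    rw [H17.Cm.dv_dot, dv_mv, dv_mv, e2 θ k, dv_vec, k2, ← dot_mv, H17.Cm.vec_dot] at this
    simpa [mv, sp] using this)
  have m0 := mv_mem Rᵀ (e1 θ)
  have m1 : ∀ p, vec (dir l) p ∈ Ft θ τ := mem_of_dot ((dot_mv ..).trans n1) (by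
    rintro (_ | p) hp
    · exact zero_mem _
    · exact mem_Ft ((congrFun k2 p).trans (Pi.single_eq_of_ne (by simpa using hp) _)))
    (mv_mem _ m0) ho
  have m2 : ∀ p, hat (pos l) p ∈ Ft θ τ := mem_of_dot ((dot_mv ..).trans n2) (by
    rintro (_ | p) hp
    · exact one_mem _
    · exact mem_Ft ((congrFun k1 p).trans (by simp [show p ≠ o by simpa using hp])))
    (mv_mem _ m0) ho
  have m3 : z ∈ Ft θ τ := mem_of_edge h.mem (fun p => m2 (some p)) fun p => m1 (some p)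
  obtain ⟨j, hj⟩ : ∃ j, mv Rᵀ E j ≠ 0 := by
    by_contra! hn
    exact ho (by rw [show mv Rᵀ E = 0 from funext hn]; simp [mv])
  have c1 := cross_par ((dotProduct_comm _ _).trans n2) ((dotProduct_comm _ _).trans n1) j
  have c2 := h.sq
  simp only [dsc, bf_nf] at c2
  have m4 : (mv P (hat (pos l)) ⨯₃ mv P (vec (dir l))) j ∈ Ft θ τ := by
    have a := mv_mem P m1
    have b := mv_mem P m2
    fin_cases j <;> exact sub_mem (mul_mem (b _) (a _)) (mul_mem (b _) (a _))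
  generalize (mv P (hat (pos l)) ⨯₃ mv P (vec (dir l))) j = M at c1 m4
  have M0 : M ≠ 0 := by
    rintro rfl
    exact mul_ne_zero (pow_ne_zero 2 hj) (pow_ne_zero 2 h.ne) (by
      linear_combination c1 + mv Rᵀ E j ^ 2 * c2)
  obtain ⟨a, b, c, q0, q1, q2, q3, q4⟩ := sq4 (z := i * z * mv Rᵀ E j / M) k3
    (θ.map_algebraMap _) (θ.map_algebraMap _) (θ.map_algebraMap _) (θ.map_algebraMap _)
    (θ.map_algebraMap _) (div_mem (mul_mem (mul_mem (hi ▸ (Ft θ τ).algebraMap_mem I) m3) (m0 j)) m4)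
    (by
      rw [← e3, div_pow, div_eq_iff (pow_ne_zero 2 M0)]
      linear_combination -c1 - mv Rᵀ E j ^ 2 * c2 + (z * mv Rᵀ E j) ^ 2 * hi2)
  obtain ⟨a, rfl⟩ := sq_mem q0
  obtain ⟨c, rfl⟩ := sq_mem q4
  obtain ⟨b, rfl⟩ := sq_mem (a := b) (x := 4 * (R * Rᵀ) 2 2 - 2 * (R * Rᵀ) 0 0 -
    2 * (R * Rᵀ) 1 1 - 2 * a * c) (by
      rw [map_sub, q2]; simp only [map_mul, map_ofNat]; ring)
  have inj := (algebraMap C Ω).injective
  exact conic hR hI (a := a) (b := b) (c := c) (inj (by rw [q0, map_pow]))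
    (inj (by rw [q1]; simp only [map_mul, map_ofNat]))
    (inj (by rw [q2]; simp only [map_add, map_mul, map_ofNat, map_pow]))
    (inj (by rw [q3]; simp only [map_mul, map_ofNat])) (inj (by rw [q4, map_pow]))

/-- The reduction in coordinates. -/
lemma Dat.red [IsAlgClosed C] (h : Dat m l t z (Pᵀ * S * P) P) (hΓ : P * Γ = 1) (hS : S.IsSymm)
    (h3 : 3 ≤ r) : ∃ (c : C) (κ : Fin r → C), c ≠ 0 ∧ S = c • 1 + vecMulVec κ κ ∧
      (r = 3 ∨ ∃ ζ, S *ᵥ ζ = 0 ∧ κ ⬝ᵥ ζ = 1) := by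
  have : CharZero C := (algebraMap C Ω).charZero
  obtain ⟨s, R, Γ', hR, rfl⟩ := nf hS
  have s3 : 3 ≤ s := by
    have e : m.f = quad ((R * P)ᵀ * (R * P)) := by
      simp only [h.eq, transpose_mul, Matrix.mul_assoc]
    exact three_le (e ▸ m.prime) (e ▸ m.deg)
  have s4 := le_rank hR
  by_cases hν : mv (Rᵀ * R) (mv P (hat (pt l t))) ⬝ᵥ mv (Rᵀ * R) (mv P (hat (pt l t))) = 0
  · generalize Rᵀ * R = S at *
    have e0 : ∀ T : Matrix (Fin r) (Fin r) C, Γᵀ * (Pᵀ * T * P) * Γ = T := fun T => by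
      rw [← Matrix.mul_assoc, ← Matrix.mul_assoc, ← transpose_mul, Matrix.mul_assoc, hΓ]; simp
    obtain ⟨j, hj⟩ : ∃ j, mv S (mv P (hat (pt l t))) j ≠ 0 := by
      by_contra! hn
      refine h.tan.on.grad_ne (dotProduct_eq_zero _ fun v => ?_)
      rw [h.eq, grad_dot h.sy, bf_comm h.sy, bf_mv,
        show mv S (mv P (hat (pt l t))) = 0 from funext hn]
      simp
    have r4 := card_le_of_span ![mv P (hat (pt l t)), mv P (vec (dir l)),
      mv S (mv P (hat (pt l t))), Pi.single j 1] (h.span hΓ (Submodule.subset_span ⟨0, rfl⟩)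
      (Submodule.subset_span ⟨1, rfl⟩) (Submodule.subset_span ⟨2, rfl⟩)
      (Submodule.subset_span ⟨3, rfl⟩) (by simpa using hj))
    obtain ⟨c, hc⟩ := quad_par (B' := Pᵀ * (S * S) * P) h.tan.on h.qd h.sy h.eq
      (by simp [IsSymm, transpose_mul, hS.eq, Matrix.mul_assoc])
      (by rw [bf_mv, ← mv_mv S S, ← hν, ← dot_mv S, hS.eq])
    have e1 : S * S = c • S := by rw [← e0 (S * S), hc, Matrix.mul_smul, Matrix.smul_mul, e0]
    obtain ⟨c0, κ, ζ, k1, k2⟩ := cone r4 hS (s3.trans s4) e1 fun e => by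
      have := h.tan.pp h.eq
      rw [e, Matrix.mul_smul, Matrix.smul_mul, Matrix.mul_one, bf_smul, bf_nf, mul_eq_zero,
        or_iff_left h.pp, map_eq_zero] at this
      simp [e, this, mv] at hj
    exact ⟨c, κ, c0, k1, .inr ⟨ζ, k2⟩⟩
  · have r3 := card_le_of_span ![mv P (hat (pt l t)), mv P (vec (dir l)),
      mv (Rᵀ * R) (mv P (hat (pt l t)))] (h.span hΓ (Submodule.subset_span ⟨0, rfl⟩)
      (Submodule.subset_span ⟨1, rfl⟩) (Submodule.subset_span ⟨2, rfl⟩)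
      (Submodule.subset_span ⟨2, rfl⟩) hν)
    obtain rfl : r = 3 := le_antisymm r3 h3
    obtain rfl : s = 3 := le_antisymm (s4.trans (rank_le_width _)) s3
    obtain ⟨c, κ, c0, e⟩ := h.three hΓ hR
    exact ⟨c, κ, c0, e, .inl rfl⟩

/-- Split tangent edges: the second quadric is a tangent cone of the first one, or the two quadrics
are cones over conics with a double contact. -/
theorem red [IsAlgClosed C] [IsAlgClosed Ω] {m m' : Mir k C ι} {l l' : ι ⊕ ι → Ω} {u : Ω}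
    {A : Matrix (Option ι) (Option ι) C} (hq' : Qd m') (hne : m' ≠ m) (hA : A.IsSymm)
    (hm : m.f = quad A) (hl : Tl m' l) (st : St m l u l') (hu : H96A.Inv (H42.FL C l) u) :
    ∃ (c : C) (y : Option ι → C), c ≠ 0 ∧ m'.f = quad (c • A + vecMulVec (A *ᵥ y) (A *ᵥ y)) ∧
      ((∃ x, (c • A + vecMulVec (A *ᵥ y) (A *ᵥ y)) *ᵥ x = 0 ∧ A *ᵥ y ⬝ᵥ x = 1) ∨
        ∃ g : Fin 3 → Option ι → C, LinearIndependent C g ∧ A = ∑ a, vecMulVec (g a) (g a) ∧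
          (c • A + vecMulVec (A *ᵥ y) (A *ᵥ y)).rank = 3) := by
  have : CharZero C := (algebraMap C Ω).charZero
  obtain ⟨t, ht⟩ := exists_tan hl
  obtain ⟨B, hB, hm'⟩ := exists_quad hq'.le
  obtain ⟨r, P, Γ, hΓ, rfl⟩ := nf hA
  have r3 : 3 ≤ r := three_le (hm ▸ m.prime) (hm ▸ m.deg)
  have l0 : ∀ i, l i ∈ IntermediateField.adjoin C (range l) := fun i =>
    IntermediateField.subset_adjoin _ _ ⟨i, rfl⟩
  have u0 : u ∈ IntermediateField.adjoin C (range l) := by_contra fun hn => by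
    obtain ⟨τ, t1, t2⟩ := H17.aut_move hn
    exact t2 (hu τ fun a ha => t1 a (IntermediateField.subset_adjoin _ _ ha))
  have h : Dat m' l t (bf (Pᵀ * P) (hat (pt l u)) (vec (dir l))) B P :=
    ⟨ht, hq', hB, hm', bf_mem _ (hat_mem fun i => add_mem (l0 _) (mul_mem u0 (l0 _)))
      (vec_mem fun i => l0 _), by simpa [hm, grad_dot hA] using st.nu, by
      rw [dsc_pt hA l u, ← aeval_quad, ← hm, st.zero, zero_mul, sub_zero], fun e => by
      have h1 := (ht.on m.f).1 (by rw [hm, aeval_quad, bf_nf, e])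
      exact hne (Mir.ext_of_associated (m'.prime.associated_of_dvd m.prime h1))⟩
  obtain ⟨S, hS, rfl⟩ : ∃ S : Matrix (Fin r) (Fin r) C, S.IsSymm ∧ B = Pᵀ * S * P :=
    ⟨_, by simp [IsSymm, transpose_mul, hB.eq, Matrix.mul_assoc], h.vertex hΓ r3⟩
  obtain ⟨c, κ, c0, e, hh⟩ := h.red hΓ hS r3
  have e1 : (Pᵀ * P) *ᵥ Γ *ᵥ κ = Pᵀ *ᵥ κ := by rw [mulVec_mulVec, Matrix.mul_assoc, hΓ]; simp
  have e2 : c • (Pᵀ * P) + vecMulVec (Pᵀ *ᵥ κ) (Pᵀ *ᵥ κ) = Pᵀ * S * P := by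
    rw [e, Matrix.mul_add, Matrix.add_mul, mul_vecMulVec, vecMulVec_mul, mulVec_transpose]; simp
  refine ⟨c, Γ *ᵥ κ, c0, by rw [e1, e2, hm'], ?_⟩
  rw [e1, e2]
  rcases hh with rfl | ⟨ζ, k1, k2⟩
  · refine .inr ⟨fun a => P a, ?_, ?_,
      le_antisymm ((rank_mul_le_right (Pᵀ * S) P).trans
        (P.rank_le_card_height.trans (Fintype.card_fin 3).le)) ?_⟩
    · refine Fintype.linearIndependent_iff.2 fun a ha => congrFun (?_ : a = 0)
      rw [← vecMul_one a, ← hΓ, ← vecMul_vecMul, vecMul_eq_sum a, ha, zero_vecMul]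
    · ext; simp [mul_apply, Matrix.sum_apply, vecMulVec_apply]
    · obtain ⟨s, R, Γ', hR, e3⟩ := nf hB
      rw [e3] at hm' ⊢
      exact (three_le (hm' ▸ m'.prime) (hm' ▸ m'.deg)).trans (le_rank hR)
  · refine .inl ⟨Γ *ᵥ ζ, ?_, ?_⟩
    · rw [mulVec_mulVec, Matrix.mul_assoc, hΓ, Matrix.mul_one, ← mulVec_mulVec, k1, mulVec_zero]
    · rw [mulVec_transpose, ← dotProduct_mulVec, mulVec_mulVec, hΓ, one_mulVec, k2]

end Pool.Agent.MP_249f74_an.H78
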